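import Mathlib
import Pool.Agent.MP_1195b1_lc.Algo

/-! A min-max characterisation of feasibility for two class sizes. -/

set_option autoImplicit false

namespace Pool.Agent.MP_1195b1_lc.FF

open Finset

variable {α : Type*} [DecidableEq α]

/-- Families of pairwise disjoint subsets of `S`. -/
def Sp (S : Finset α) (𝒳 : Finset (Finset α)) : Prop :=
  (∀ X ∈ 𝒳, X ⊆ S) ∧ ∀ X ∈ 𝒳, ∀ Y ∈ 𝒳, X ≠ Y → Disjoint X Y

variable {S F : Finset α} {p : Finset α → ℤ} {a b : ℕ}

theorem fam {U : Finset α} (hU : DU S p b F U) :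
    ∃ 𝒳, Sp S 𝒳 ∧ 𝒳.biUnion id = U ∧ ∑ X ∈ 𝒳, (p X - b) = (U ∩ F).card := by
  induction hU with
  | empty => exact ⟨∅, ⟨by simp, by simp⟩, by simp, by simp⟩
  | cons X U hX _ hd ih =>
    obtain ⟨𝒳, h1, h2, h3⟩ := ih
    have hs : ∀ Y ∈ 𝒳, Y ⊆ U := fun Y hY => h2 ▸ subset_biUnion_of_mem id hY
    by_cases hm : X ∈ 𝒳
    · exact ⟨𝒳, h1, by rw [h2, union_eq_right.2 (hs X hm)],
        by rw [h3, union_eq_right.2 (hs X hm)]⟩
    refine ⟨insert X 𝒳, ⟨fun Y hY => ?_, fun Y hY Z hZ hne => ?_⟩, by rw [biUnion_insert, h2]; rfl,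
      ?_⟩
    · rcases mem_insert.1 hY with rfl | hY
      exacts [hX.1, h1.1 Y hY]
    · rcases mem_insert.1 hY with rfl | hY' <;> rcases mem_insert.1 hZ with rfl | hZ'
      · exact absurd rfl hne
      · exact hd.mono_right (hs Z hZ')
      · exact (hd.mono_right (hs Y hY')).symm
      · exact h1.2 Y hY' Z hZ' hne
    · rw [sum_insert hm, h3, union_inter_distrib_right, card_union_of_disjoint
        (hd.mono inter_subset_left inter_subset_left), hX.2]
      push_cast; ring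

theorem sum_le (hF : Low S p b F) {𝒳 : Finset (Finset α)} (h : Sp S 𝒳) :
    ∑ X ∈ 𝒳, (p X - b) ≤ (𝒳.biUnion id ∩ F).card := by
  rw [biUnion_inter, card_biUnion (t := fun X => id X ∩ F) fun X hX Y hY hne =>
    (h.2 X hX Y hY hne).mono inter_subset_left inter_subset_left]
  push_cast
  exact sum_le_sum fun X hX => by have := hF X (h.1 X hX); simp only [id]; omega

/-- The condition of the theorem. -/
def Cond (I : Inst α) (t : ℕ) : Prop := ∀ 𝒳 𝒴, Sp I.S 𝒳 → Sp I.S 𝒴 →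
  ∑ X ∈ 𝒳, (I.p false X - I.b) + ∑ Y ∈ 𝒴, (I.p true Y - I.b) ≤
    t + (𝒳.biUnion id ∩ 𝒴.biUnion id).card

theorem cond_of {I : Inst α} (hF : ∀ i, Low I.S (I.p i) I.b F) : Cond I F.card := by
  intro 𝒳 𝒴 h1 h2
  have e1 := sum_le (hF false) h1
  have e2 := sum_le (hF true) h2
  have e3 := card_inter_add_union (𝒳.biUnion id) (𝒴.biUnion id) F
  have e4 : (𝒳.biUnion id ∩ 𝒴.biUnion id ∩ F).card ≤ (𝒳.biUnion id ∩ 𝒴.biUnion id).card :=
    card_le_card inter_subset_left
  have e5 : ((𝒳.biUnion id ∪ 𝒴.biUnion id) ∩ F).card ≤ F.card := card_le_card inter_subset_right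
  omega

/-- A member that cannot be moved out of `R`: a certificate, or the upper conditions are tight. -/
theorem cut2 (hp : Skew S p) (hb : Bdd S p (a + b)) (hF : InQ S p a b F) {R : Finset α}
    (hno : ∀ u ∈ F, u ∈ R → ∀ v ∈ S \ F, v ∉ R → ¬ InQ S p a b (exch F u v)) {x : α → ℚ}
    (hx : Frac S p a b x) :
    (((F ∩ R).card : ℚ) ≤ ∑ s ∈ S ∩ R, x s ∧ ∃ 𝒳, Sp S 𝒳 ∧
      ((F ∩ R).card : ℤ) + (𝒳.biUnion id \ R).card ≤ ∑ X ∈ 𝒳, (p X - b)) ∨
    ∑ s ∈ S \ R, x s ≤ (F \ R).card := by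
  by_cases hall : ∀ u ∈ F, u ∈ R → ∃ X, Tight S p b F X ∧ u ∈ X
  · refine Or.inl ⟨cutA hp hb hF hno hall hx, ?_⟩
    obtain ⟨U, hU, hDU, hUW⟩ := exists_DU_cover hp hF.2.1 (F ∪ R) (F ∩ R) inter_subset_left (by
      intro u hu
      obtain ⟨huF, huR⟩ := mem_inter.1 hu
      obtain ⟨X, hX, huX, hmin⟩ := exists_min_tight hp hF.2.1 huF (hall u huF huR)
      refine ⟨X, hX, huX, fun v hv => ?_⟩
      by_contra hvW
      simp only [mem_union, not_or] at hvW
      have hvG : v ∈ S \ F := mem_sdiff.2 ⟨hX.1 hv, hvW.1⟩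
      exact hno u huF huR v hvG hvW.2 (hF.exch huF hvG (fun Y hY huY => hmin Y hY huY hv)
        fun Y hY hvY => hX.cross hp hb hF hY hv hvY (mem_inter.2 ⟨huX, huF⟩)))
    obtain ⟨𝒳, h1, h2, h3⟩ := fam hU
    refine ⟨𝒳, h1, ?_⟩
    rw [h2, h3]
    have h5 : (F ∩ R).card + (U \ R).card ≤ (U ∩ F).card := by
      rw [← card_union_of_disjoint (by rw [disjoint_left]; intro s; simp; tauto)]
      refine card_le_card fun s hs => ?_
      have h6 := @hDU s
      have h7 := @hUW s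
      simp only [mem_inter, mem_union, mem_sdiff] at hs h6 h7 ⊢
      tauto
    exact_mod_cast h5
  push Not at hall
  obtain ⟨u0, hu0F, hu0R, hu0⟩ := hall
  have h1 := cutA (R := S \ R) hp (by rw [add_comm]; exact hb) hF.symm (by
      intro v hv hvR u hu huR hQ
      rw [Finset.sdiff_sdiff_eq_self hF.1] at hu
      have huR' : u ∈ R := by
        by_contra h
        exact huR (mem_sdiff.2 ⟨hF.1 hu, h⟩)
      refine hno u hu huR' v hv (mem_sdiff.1 hvR).2 ?_
      have := hQ.symm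
      rwa [← sdiff_exch hF.1 hu (mem_sdiff.1 hv).2, Finset.sdiff_sdiff_eq_self] at this
      intro s hs
      rcases mem_exch.1 hs with rfl | hs
      · exact (mem_sdiff.1 hv).1
      · exact hF.1 hs.2) (by
      intro v hv hvR
      by_contra hcon
      push Not at hcon
      exact hno u0 hu0F hu0R v hv (mem_sdiff.1 hvR).2
        (hF.exch hu0F hv (fun X hX huX => absurd huX (hu0 X hX))
          (fun Y hY hvY => absurd hvY (hcon Y hY)))) hx.symm
  rw [inter_eq_right.2 (sdiff_subset : S \ R ⊆ S), sum_sub_distrib] at h1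
  have h4 : ((S \ F) ∩ (S \ R)).card + (F \ R).card = (S \ R).card := by
    rw [← card_union_of_disjoint (by rw [disjoint_left]; intro s; simp; tauto)]
    congr 1
    ext s
    have : s ∈ F → s ∈ S := fun h => hF.1 h
    simp only [mem_union, mem_inter, mem_sdiff]
    tauto
  have h5 : (((S \ F) ∩ (S \ R)).card : ℚ) + (F \ R).card = (S \ R).card := by exact_mod_cast h4
  simp only [sum_const, nsmul_eq_mul, mul_one] at h1
  exact Or.inr (by linarith)

variable {I : Inst α} {B : Bool → Finset α} {t : ℕ} {x : α → ℚ}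

theorem stuck (hI : I.Ok) (hB : Valid I B) (hst : ∀ j e, ¬ Good I B j e)
    (hx : ∀ i, Frac I.S (I.p i) I.a I.b x) (hsum : (t : ℚ) ≤ ∑ s ∈ I.S, x s)
    (hc : ∀ i, (B i).card = t) (hC : Cond I t) : B false = B true := by
  classical
  obtain ⟨T, hT⟩ : ∃ T, T = I.S.filter (Reach I B I.S.card) := ⟨_, rfl⟩
  have hTS : T ⊆ I.S := hT ▸ filter_subset _ _
  have hclosed : ∀ e, Arc I B e → hd e ∈ T → tl e ∈ T := by
    intro e he hh
    simp only [hT, mem_filter] at hh ⊢
    exact ⟨he.tl_mem hB, reach_stable hB (Or.inr ⟨e, he, rfl, hh.2⟩)⟩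
  have h1 := cut2 (R := I.S \ T) (hI false).1 (hI false).2 (hB false) (by
    intro u hu huR v hv hvR hQ
    have hv' := mem_sdiff.1 hv
    have hvT : v ∈ T := by
      by_contra h
      exact hvR (mem_sdiff.2 ⟨hv'.1, h⟩)
    exact (mem_sdiff.1 huR).2 (hclosed (false, u, v) ⟨hu, hv'.1, hv'.2, hQ⟩ hvT)) (hx false)
  have h2 := cut2 (R := T) (hI true).1 (hI true).2 (hB true) (by
    intro u hu huR v hv hvR hQ
    have hv' := mem_sdiff.1 hv
    exact hvR (hclosed (true, u, v) ⟨hu, hv'.1, hv'.2, hQ⟩ huR)) (hx true)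
  have h3 : ∑ s ∈ I.S ∩ T, x s + ∑ s ∈ I.S \ T, x s = ∑ s ∈ I.S, x s :=
    sum_inter_add_sum_sdiff _ _ x
  have h4 : B false ∩ T ⊆ B true ∩ T := by
    intro s hs
    obtain ⟨hs1, hs2⟩ := mem_inter.1 hs
    refine mem_inter.2 ⟨?_, hs2⟩
    by_contra hs3
    rw [hT] at hs2
    rcases (mem_filter.1 hs2).2.unfold with h | ⟨l, -, f, hf, ht, hr⟩
    · exact hs3 h.1
    · exact hst l f ⟨hf, ht ▸ hs1, ht ▸ hs3, hr⟩
  have e1 : B false ∩ (I.S \ T) = B false \ T := by
    ext s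
    have : s ∈ B false → s ∈ I.S := fun h => (hB false).1 h
    simp only [mem_inter, mem_sdiff]; tauto
  have e2 : B false \ (I.S \ T) = B false ∩ T := by
    ext s
    have : s ∈ B false → s ∈ I.S := fun h => (hB false).1 h
    simp only [mem_inter, mem_sdiff]; tauto
  rw [e1, e2, inter_eq_right.2 (sdiff_subset : I.S \ T ⊆ I.S),
    Finset.sdiff_sdiff_eq_self hTS] at h1
  rw [inter_eq_right.2 hTS] at h2 h3
  have c1 := card_inter_add_card_sdiff (B false) T
  have c2 := card_inter_add_card_sdiff (B true) T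
  rw [hc] at c1 c2
  have h6 : (B true ∩ T).card ≤ (B false ∩ T).card := by
    have q1 : ((B false ∩ T).card : ℚ) + (B false \ T).card = t := by exact_mod_cast c1
    have q2 : ((B true ∩ T).card : ℚ) + (B true \ T).card = t := by exact_mod_cast c2
    rcases h1 with ⟨a1, 𝒳, a2, a3⟩ | a1 <;> rcases h2 with ⟨b1, 𝒴, b2, b3⟩ | b1
    · have k1 := hC 𝒳 𝒴 a2 b2
      have k2 : (𝒳.biUnion id ∩ 𝒴.biUnion id).card ≤
          (𝒳.biUnion id \ (I.S \ T)).card + (𝒴.biUnion id \ T).card :=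
        (card_le_card fun s hs => by
          simp only [mem_inter, mem_union, mem_sdiff] at hs ⊢; tauto).trans (card_union_le _ _)
      omega
    · exact_mod_cast (by linarith : ((B true ∩ T).card : ℚ) ≤ (B false ∩ T).card)
    · exact_mod_cast (by linarith : ((B true ∩ T).card : ℚ) ≤ (B false ∩ T).card)
    · exact_mod_cast (by linarith : ((B true ∩ T).card : ℚ) ≤ (B false ∩ T).card)
  have h7 := eq_of_subset_of_card_le h4 h6
  refine (eq_of_subset_of_card_le (fun s hs => ?_) (by rw [hc, hc])).symm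
  by_contra hs'
  have hsT : s ∈ T := hT ▸ mem_filter.2 ⟨(hB true).1 hs,
    Reach.mono (j := 0) ⟨hs, hs'⟩ (Nat.zero_le _)⟩
  have : s ∈ B false ∩ T := h7 ▸ mem_inter.2 ⟨hs, hsT⟩
  exact hs' (mem_inter.1 this).1

theorem start (hp : Skew S p) (hb : Bdd S p (a + b)) (hx : Frac S p a b x)
    (hsum : (t : ℚ) ≤ ∑ s ∈ S, x s) (hC : ∀ 𝒳, Sp S 𝒳 → ∑ X ∈ 𝒳, (p X - b) ≤ t) :
    ∃ F, InQ S p a b F ∧ F.card = t := by
  classical
  obtain ⟨F0, hF0, hmin⟩ := exists_min_image (S.powerset.filter fun F => Low S p b F) card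
    ⟨S, by simp [low_ground hb]⟩
  simp only [mem_filter, mem_powerset] at hF0 hmin
  have hno : ∀ u ∈ F0, ¬ Low S p b (F0.erase u) := by
    intro u hu h
    have h1 := hmin _ ⟨(erase_subset _ _).trans hF0.1, h⟩
    have h2 := card_erase_lt_of_mem hu
    omega
  have hQ0 : InQ S p a b F0 := ⟨hF0.1, hF0.2, low_compl_of_no_erase hp hb hF0.2 hno⟩
  have hc0 : F0.card ≤ t := by
    obtain ⟨U, hU, hDU, -⟩ := exists_DU_cover hp hF0.2 S F0 subset_rfl (by
      intro u hu
      by_contra hcon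
      push Not at hcon
      exact hno u hu (hF0.2.erase fun X hX huX => hcon X hX huX hX.1))
    obtain ⟨𝒳, h1, -, h3⟩ := fam hU
    have := hC 𝒳 h1
    rw [h3, inter_eq_right.2 hDU] at this
    exact_mod_cast this
  obtain ⟨F, hF, hmax⟩ := exists_max_image
    (S.powerset.filter fun F => InQ S p a b F ∧ F.card ≤ t) card ⟨F0, by simp [hQ0, hc0, hF0.1]⟩
  simp only [mem_filter, mem_powerset] at hF hmax
  refine ⟨F, hF.2.1, le_antisymm hF.2.2 ?_⟩
  by_contra hlt
  have h1 := le_card_of_no_insert hp hF.2.1 (by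
    intro v hv h
    have hv' := mem_sdiff.1 hv
    have h2 : insert v F ⊆ S := insert_subset hv'.1 hF.1
    have h3 := hmax (insert v F) ⟨h2, ⟨h2, hF.2.1.2.1.mono (subset_insert _ _), by
      rwa [sdiff_insert]⟩, by rw [card_insert_of_notMem hv'.2]; omega⟩
    rw [card_insert_of_notMem hv'.2] at h3
    omega) hx
  exact hlt (by exact_mod_cast hsum.trans h1)

theorem common (hI : I.Ok) (hx : ∀ i, Frac I.S (I.p i) I.a I.b x)
    (hsum : (t : ℚ) ≤ ∑ s ∈ I.S, x s) (hC : Cond I t) :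
    ∃ F, (∀ i, InQ I.S (I.p i) I.a I.b F) ∧ F.card = t := by
  have h0 : Sp I.S ∅ := ⟨by simp, by simp⟩
  choose B0 hB0 using fun i => start (hI i).1 (hI i).2 (hx i) hsum fun 𝒳 h => by
    cases i
    · simpa using hC 𝒳 ∅ h h0
    · simpa using hC ∅ 𝒳 h0 h
  have key : ∀ N, ∀ B : Bool → Finset α, pot I B = N → Valid I B → (∀ i, (B i).card = t) →
      ∃ F, (∀ i, InQ I.S (I.p i) I.a I.b F) ∧ F.card = t := by
    intro N
    induction N using Nat.strong_induction_on with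
    | _ N ih =>
      intro B hN hB hc
      rcases Set.eq_empty_or_nonempty {j | ∃ e, Good I B j e} with h | h
      · have h1 := stuck hI hB (fun j e he => by
          have : j ∈ {j | ∃ e, Good I B j e} := ⟨e, he⟩
          rw [h] at this
          exact this) hx hsum hc hC
        refine ⟨B false, fun i => ?_, hc false⟩
        cases i
        · exact hB false
        · exact h1 ▸ hB true
      · obtain ⟨e, he⟩ := Nat.sInf_mem h
        have h1 := progress hI hB he (fun l hl f hf =>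
          Nat.notMem_of_lt_sInf hl (show l ∈ {j | ∃ e, Good I B j e} from ⟨f, hf⟩))
        exact ih _ (hN ▸ h1) _ rfl (he.1.valid hB) (fun i => by rw [he.1.card, hc])
  exact key _ B0 rfl (fun i => (hB0 i).1) (fun i => (hB0 i).2)

/-- `a` classes of the small size `n₁`, `b` classes of the large size `n₂`. -/
theorem main (hI : I.Ok) {n₁ n₂ : ℕ} (h0 : 0 < I.a + I.b) (h1 : 0 < n₁) (h2 : n₁ ≤ n₂)
    (hS : I.a * n₁ + I.b * n₂ = I.S.card) : Feas I n₁ n₂ ↔ Cond I (I.a * n₁) := by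
  rw [feas_iff hI h1 (h1.trans_le h2) hS]
  refine ⟨fun ⟨F, hF, hc⟩ => hc ▸ cond_of fun i => (hF i).2.1, fun hC => ?_⟩
  have hk : (0 : ℚ) < I.a + I.b := by exact_mod_cast h0
  have ha : (0 : ℚ) ≤ I.a := Nat.cast_nonneg _
  have hb : (0 : ℚ) ≤ I.b := Nat.cast_nonneg _
  refine common hI (x := fun _ => (I.a : ℚ) / (I.a + I.b)) (fun i =>
    ⟨fun s _ => ⟨by positivity, by rw [div_le_one hk]; linarith⟩, frac_uniform (hI i).2 h0, ?_⟩)
    ?_ hC
  · have := frac_uniform (a := I.b) (b := I.a) (p := I.p i) (S := I.S)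
      (by rw [add_comm]; exact (hI i).2) (by omega)
    have e : (fun _ : α => 1 - (I.a : ℚ) / (I.a + I.b)) = fun _ => (I.b : ℚ) / (I.b + I.a) := by
      funext _; rw [add_comm (I.b : ℚ)]; field_simp; ring
    rw [e]; exact this
  · have h3 : (n₁ : ℚ) ≤ n₂ := by exact_mod_cast h2
    rw [sum_const, nsmul_eq_mul, ← hS, ← mul_div_assoc, le_div_iff₀ hk]
    push_cast
    nlinarith [mul_nonneg (mul_nonneg ha hb) (sub_nonneg.2 h3)]

end Pool.Agent.MP_1195b1_lc.FF
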